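import Pool.Agent.Lib.MP_0c3001_gt.Mg.G008
import Pool.Agent.Lib.MP_0c3001_gt.Br.Main

/-!
# The centre of the fundamental group of a closed aspherical manifold modulo the finite residual

Let `M` be a closed connected topological manifold with `π_k(M) = 0` for all `k ≥ 2`, `G = π₁(M)` and
`C` a central subgroup of `G`.  Then there is a finitely generated subgroup `F` of `C` such that
every element of `C` is the product of an element of `F` and an element of `C` that lies in all
subgroups of finite index of `G`.
-/

set_option autoImplicit false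

namespace Pool.Agent.Results.MP_0c3001_gt.CentreModuloResidual

theorem result :
    ∀ (n : ℕ) (M : Type) [TopologicalSpace M] [T2Space M] [SecondCountableTopology M]
      [ChartedSpace (EuclideanSpace ℝ (Fin n)) M] [CompactSpace M] [ConnectedSpace M],
      (∀ (k : ℕ) (x : M), 2 ≤ k → Subsingleton (HomotopyGroup (Fin k) M x)) →
      ∀ (x : M) (C : Subgroup (FundamentalGroup M x)),
        C ≤ Subgroup.center (FundamentalGroup M x) →
        ∃ F : Subgroup (FundamentalGroup M x), F.FG ∧ F ≤ C ∧
          ∀ c ∈ C, ∃ f ∈ F, ∀ H : Subgroup (FundamentalGroup M x), H.FiniteIndex →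
            f⁻¹ * c ∈ H := by
  intro n M _ _ _ _ _ _ hπ x C hC
  have hk : Function.Bijective (Int.cast : ℤ → ℤ) := by
    have : (Int.cast : ℤ → ℤ) = id := by funext x; simp
    rw [this]; exact Function.bijective_id
  obtain ⟨⟨D, hD⟩, hfg⟩ := Pool.Agent.MP_0c3001_gt.Br.bridge n M hπ x hk
  refine Pool.MP0c3001.center_mod_residual hk D (fun V i hi y => ?_) hfg C hC
  have := hD V i (by omega)
  exact Subsingleton.elim _ _

end Pool.Agent.Results.MP_0c3001_gt.CentreModuloResidual
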