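import Pool.Agent.Lib.MP_0c3001_gt.Mg.G007
import Pool.Agent.Lib.MP_0c3001_gt.Br.Main

/-!
# The centre of the fundamental group of a closed aspherical manifold

Let `M` be a closed connected topological manifold with `π_k(M) = 0` for all `k ≥ 2` and `C` a
central subgroup of `π₁(M)` such that the only element of `C` that lies in all subgroups of finite
index of `π₁(M)` is `1` (for instance `π₁(M)` residually finite and `C` the centre).  Then `C` is
finitely generated.
-/

set_option autoImplicit false

namespace Pool.MP0c3001.Old.CentreResiduallyFinite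

theorem result :
    ∀ (n : ℕ) (M : Type) [TopologicalSpace M] [T2Space M] [SecondCountableTopology M]
      [ChartedSpace (EuclideanSpace ℝ (Fin n)) M] [CompactSpace M] [ConnectedSpace M],
      (∀ (k : ℕ) (x : M), 2 ≤ k → Subsingleton (HomotopyGroup (Fin k) M x)) →
      ∀ (x : M) (C : Subgroup (FundamentalGroup M x)),
        C ≤ Subgroup.center (FundamentalGroup M x) →
        (∀ c ∈ C, (∀ H : Subgroup (FundamentalGroup M x), H.FiniteIndex → c ∈ H) → c = 1) →
        C.FG := by
  intro n M _ _ _ _ _ _ hπ x C hC hres
  have hk : Function.Bijective (Int.cast : ℤ → ℤ) := by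
    have : (Int.cast : ℤ → ℤ) = id := by funext x; simp
    rw [this]; exact Function.bijective_id
  obtain ⟨⟨D, hD⟩, hfg⟩ := Pool.Agent.MP_0c3001_gt.Br.bridge n M hπ x hk
  refine Pool.MP0c3001.center_fg hk D (fun V i hi y => ?_) hfg C hC hres
  have := hD V i (by omega)
  exact Subsingleton.elim _ _

end Pool.MP0c3001.Old.CentreResiduallyFinite
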