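import Pool.Agent.Lib.MP_0c3001_gt.TypeFP

/-!
# Central subgroups of groups of type FP

Let `G` be a group of type FP over `ℤ` and `C` a central subgroup of `G` such that the only
element of `C` that lies in all subgroups of finite index of `G` is `1`.  Then `C` is finitely
generated.
-/

set_option autoImplicit false

namespace Pool.Agent.Results.MP_0c3001_gt.CentreTypeFP

open CategoryTheory CategoryTheory.Limits

/-- `G` is of type FP over `R`: the trivial representation `R` of `G` has a projective resolution
`0 → P_n → ⋯ → P_0 → R → 0` of finite length in the category of `R`-linear representations of `G`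
all of whose terms `P_i` are finitely generated modules over the group ring `R[G]`. -/
def TypeFP (R : Type) [CommRing R] (G : Type) [Group G] : Prop :=
  ∃ P : ProjectiveResolution (Rep.trivial.{0} R G R),
    (∀ i : ℕ, Module.Finite (MonoidAlgebra R G) (P.complex.X i).ρ.asModule) ∧
      ∃ n : ℕ, ∀ i : ℕ, n < i → IsZero (P.complex.X i)

theorem result (G : Type) [Group G] (hG : TypeFP ℤ G) (C : Subgroup G)
    (hC : C ≤ Subgroup.center G)
    (hres : ∀ c ∈ C, (∀ H : Subgroup G, H.FiniteIndex → c ∈ H) → c = 1) : C.FG :=
  Pool.MP0c3001.center_fg_of_typeFP hG C hC hres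

end Pool.Agent.Results.MP_0c3001_gt.CentreTypeFP
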