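import Pool.Agent.Lib.MP_0c3001_gt.DV.MS
import Pool.Agent.Lib.MP_0c3001_gt.DV.FR
import Pool.Agent.Lib.MP_0c3001_gt.Br.Main

/-!
# A centre which is not finitely generated forces copies of `ℤ[1/l]` for every prime `l`

Let `M` be a closed connected topological manifold with `π_k(M) = 0` for all `k ≥ 2`, `G = π₁(M)` and
`C` a central subgroup of `G`.
(1) If for one prime `l` the group `G` has no subgroup isomorphic to `ℤ[1/l]`, then `C` is finitely
generated.
(2) If `C` is not finitely generated, then there is an element `z ≠ 1` of `C` which lies in all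
subgroups of finite index of `G` and which for every prime `l` lies in a subgroup of `G`
isomorphic to `ℤ[1/l]`.
-/

set_option autoImplicit false

namespace Pool.Agent.Results.MP_0c3001_gt.DivisibleCentre

theorem result :
    ∀ (n : ℕ) (M : Type) [TopologicalSpace M] [T2Space M] [SecondCountableTopology M]
      [ChartedSpace (EuclideanSpace ℝ (Fin n)) M] [CompactSpace M] [ConnectedSpace M],
      (∀ (k : ℕ) (x : M), 2 ≤ k → Subsingleton (HomotopyGroup (Fin k) M x)) →
      ∀ (x : M) (C : Subgroup (FundamentalGroup M x)),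
        C ≤ Subgroup.center (FundamentalGroup M x) →
        ((∃ l : ℕ, l.Prime ∧ ∀ D : Subgroup (FundamentalGroup M x),
          ¬ Nonempty (D ≃* Multiplicative (Localization.Away (l : ℤ)))) → C.FG) ∧
        (¬ C.FG → ∃ z ∈ C, z ≠ 1 ∧
          (∀ H : Subgroup (FundamentalGroup M x), H.FiniteIndex → z ∈ H) ∧
          ∀ l : ℕ, l.Prime → ∃ D : Subgroup (FundamentalGroup M x), z ∈ D ∧
            Nonempty (D ≃* Multiplicative (Localization.Away (l : ℤ)))) := by
  intro n M _ _ _ _ _ _ hπ x C hC
  have hk : Function.Bijective (Int.cast : ℤ → ℤ) := by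
    have : (Int.cast : ℤ → ℤ) = id := by funext x; simp
    rw [this]; exact Function.bijective_id
  obtain ⟨⟨D, hD⟩, hfg⟩ := Pool.Agent.MP_0c3001_gt.Br.bridge n M hπ x hk
  have h2 : ¬ C.FG → ∃ z ∈ C, z ≠ 1 ∧
      (∀ H : Subgroup (FundamentalGroup M x), H.FiniteIndex → z ∈ H) ∧
      ∀ l : ℕ, l.Prime → ∃ D : Subgroup (FundamentalGroup M x), z ∈ D ∧
        Nonempty (D ≃* Multiplicative (Localization.Away (l : ℤ))) := by
    intro hnfg
    obtain ⟨z, hz, hz1, hl⟩ := Pool.MP0c3001.DV.theorem_S hk D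
      (fun V i hi y => by
        have := hD V i (by omega)
        exact Subsingleton.elim _ _) hfg C hC hnfg
    exact ⟨z, hz, hz1, fun H hH => Pool.MP0c3001.DV.mem_finiteIndex hl H hH, hl⟩
  refine ⟨?_, h2⟩
  rintro ⟨l, hl, hD⟩
  by_contra hnfg
  obtain ⟨z, _, _, _, h⟩ := h2 hnfg
  obtain ⟨E, _, hE⟩ := h l hl
  exact hD E hE

end Pool.Agent.Results.MP_0c3001_gt.DivisibleCentre
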